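import Mathlib

/-!
For every `d ≥ 3` there are a solvable group `G` of derived length `d` and a unimodular equation
over `G` without solutions in solvable overgroups of derived length `d`.
-/

namespace Pool.Agent.Results.MP_82f72d_al.EveryLength

universe u

open scoped commutatorElement

/-- The exponent sum of the unknown in an equation `w`, an element of the free product of `G` and
the infinite cyclic group generated by the unknown. -/
def expSum {G : Type} [Group G] (w : Monoid.Coprod G (Multiplicative ℤ)) : ℤ :=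
  Multiplicative.toAdd
    (Monoid.Coprod.lift (1 : G →* Multiplicative ℤ) (MonoidHom.id (Multiplicative ℤ)) w)

/-- The value `w(h)` of an equation `w` over `G` at an element `h` of a group `H`, the coefficients
being read in `H` through the homomorphism `i`. -/
def eval {G : Type} {H : Type u} [Group G] [Group H] (i : G →* H) (h : H)
    (w : Monoid.Coprod G (Multiplicative ℤ)) : H :=
  Monoid.Coprod.lift i (zpowersHom H h) w

/-- `G` is solvable of derived length exactly `d`. -/
def HasDerivedLength (G : Type u) [Group G] (d : ℕ) : Prop :=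
  derivedSeries G d = ⊥ ∧ ∀ k < d, derivedSeries G k ≠ ⊥

section upper

variable {N Q : Type} [Group N] [CommGroup Q] (φ : Q →* MulAut N)

lemma derivedSeries_le (k : ℕ) :
    derivedSeries (N ⋊[φ] Q) (k+1) ≤ (derivedSeries N k).map SemidirectProduct.inl := by
  induction k with
  | zero =>
    have h1 : derivedSeries (N ⋊[φ] Q) (0+1) ≤ (SemidirectProduct.rightHom (φ := φ)).ker := by
      rw [zero_add, derivedSeries_one]
      exact Abelianization.commutator_subset_ker _
    refine h1.trans ?_
    rw [derivedSeries_zero, ← MonoidHom.range_eq_map, SemidirectProduct.range_inl_eq_ker_rightHom]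
  | succ k ih =>
    rw [derivedSeries_succ, derivedSeries_succ N k, Subgroup.map_commutator]
    exact Subgroup.commutator_mono ih ih

end upper

/-- the property carried through the induction -/
def Good (n : ℕ) (G : Type) [Group G] (a c : G) : Prop :=
  derivedSeries G (n+2) = ⊥ ∧ a ∈ derivedSeries G n ∧ c ∈ derivedSeries G (n+1) ∧
    a ^ 6 = 1 ∧ c ^ 7 = 1 ∧ c ≠ 1 ∧ a⁻¹ * c * a = c ^ 5

section step

variable {G : Type} [Group G]

/-- shift of functions on the integers -/
def shiftEquiv (m : ℤ) : (ℤ → G) ≃* (ℤ → G) where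
  toFun f := fun n => f (n - m)
  invFun f := fun n => f (n + m)
  left_inv f := by ext n; simp
  right_inv f := by ext n; simp
  map_mul' f g := rfl

/-- the shift action of the integers -/
def shift : Multiplicative ℤ →* MulAut (ℤ → G) where
  toFun m := shiftEquiv (Multiplicative.toAdd m)
  map_one' := by ext f n; simp [shiftEquiv]
  map_mul' m k := by
    ext f n
    simp only [shiftEquiv, toAdd_mul, MulAut.mul_apply, MulEquiv.coe_mk, Equiv.coe_fn_mk]
    congr 1
    ring

/-- the unrestricted wreath product with the integers -/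
abbrev W (G : Type) [Group G] : Type := (ℤ → G) ⋊[shift (G := G)] Multiplicative ℤ

/-- the embedding as the coordinate subgroup -/
def emb : G →* W G := (SemidirectProduct.inl).comp (MonoidHom.mulSingle (fun _ : ℤ => G) 0)

lemma emb_inj : Function.Injective (emb (G := G)) := by
  intro x y h
  have h1 := SemidirectProduct.inl_injective h
  exact Pi.mulSingle_injective (M := fun _ : ℤ => G) 0 h1

lemma emb_mem (g : G) : emb g ∈ derivedSeries (W G) 1 := by
  -- `f n = g` for `0 ≤ n`
  let f : ℤ → G := fun n => if 0 ≤ n then g else 1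
  have key : emb g = SemidirectProduct.inl f * SemidirectProduct.inr (Multiplicative.ofAdd 1) *
      (SemidirectProduct.inl f)⁻¹ * (SemidirectProduct.inr (Multiplicative.ofAdd 1))⁻¹ := by
    rw [mul_assoc, mul_assoc, ← mul_assoc (SemidirectProduct.inr _) (SemidirectProduct.inl f)⁻¹,
      ← map_inv (SemidirectProduct.inl (φ := shift (G := G))) f, ← map_inv SemidirectProduct.inr,
      ← SemidirectProduct.inl_aut, ← map_mul]
    unfold emb
    simp only [MonoidHom.comp_apply]
    congr 1
    ext n
    simp only [MonoidHom.mulSingle_apply, Pi.mul_apply, shift, MonoidHom.coe_mk, OneHom.coe_mk,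
      shiftEquiv, toAdd_ofAdd, MulEquiv.coe_mk, Equiv.coe_fn_mk, Pi.inv_apply, f]
    rcases lt_trichotomy n 0 with h | h | h
    · rw [Pi.mulSingle_eq_of_ne (by omega), if_neg (by omega), if_neg (by omega)]
      simp
    · subst h
      simp
    · rw [Pi.mulSingle_eq_of_ne (by omega), if_pos (by omega), if_pos (by omega)]
      simp
  rw [key, derivedSeries_one]
  exact Subgroup.commutator_mem_commutator (Subgroup.mem_top _) (Subgroup.mem_top _)

lemma map_emb_le (k : ℕ) : (derivedSeries G k).map emb ≤ derivedSeries (W G) (k+1) := by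
  induction k with
  | zero =>
    rintro _ ⟨g, -, rfl⟩
    exact emb_mem g
  | succ k ih =>
    rw [derivedSeries_succ, derivedSeries_succ _ (k+1), Subgroup.map_commutator]
    exact Subgroup.commutator_mono ih ih

lemma derivedSeries_pi (n : ℕ) (h : derivedSeries G n = ⊥) : derivedSeries (ℤ → G) n = ⊥ := by
  rw [eq_bot_iff]
  intro f hf
  rw [Subgroup.mem_bot]
  ext m
  have h1 := map_derivedSeries_le_derivedSeries (Pi.evalMonoidHom (fun _ : ℤ => G) m) n
  have h2 : f m ∈ derivedSeries G n := h1 ⟨f, hf, rfl⟩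
  rw [h, Subgroup.mem_bot] at h2
  exact h2

lemma good_step {n : ℕ} {a c : G} (h : Good n G a c) : Good (n+1) (W G) (emb a) (emb c) := by
  obtain ⟨h1, h2, h3, h4, h5, h6, h7⟩ := h
  refine ⟨?_, map_emb_le n ⟨a, h2, rfl⟩, map_emb_le (n+1) ⟨c, h3, rfl⟩, ?_, ?_, ?_, ?_⟩
  · have := derivedSeries_le (shift (G := G)) (n+2)
    rw [derivedSeries_pi _ h1, Subgroup.map_bot] at this
    exact le_bot_iff.1 this
  · rw [← map_pow, h4, map_one]
  · rw [← map_pow, h5, map_one]
  · intro h
    exact h6 (emb_inj (h.trans (map_one _).symm))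
  · rw [← map_inv, ← map_mul, ← map_mul, h7, map_pow]

end step

section base

/-- the multiplication action of the units of `ZMod 7` -/
def mulAct : (ZMod 7)ˣ →* MulAut (Multiplicative (ZMod 7)) where
  toFun u := AddEquiv.toMultiplicative (DistribMulAction.toAddEquiv (ZMod 7) u)
  map_one' := by
    ext x
    simp
  map_mul' u v := by
    ext x
    simp [mul_smul]

/-- the affine group of order 42 -/
abbrev G0 : Type := Multiplicative (ZMod 7) ⋊[mulAct] (ZMod 7)ˣ

/-- the unit `3` -/
def three : (ZMod 7)ˣ := ⟨3, 5, by decide, by decide⟩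

lemma three_pow : three ^ 6 = 1 := by decide

/-- the generator of order six -/
def a0 : G0 := SemidirectProduct.inr three

/-- the generator of order seven -/
def c0 : G0 := SemidirectProduct.inl (Multiplicative.ofAdd 1)

lemma a0_pow : a0 ^ 6 = 1 := by
  rw [a0, ← map_pow, three_pow, map_one]

lemma c0_pow : c0 ^ 7 = 1 := by
  rw [c0, ← map_pow, ← ofAdd_nsmul]
  have : (7 • (1 : ZMod 7)) = 0 := by decide
  rw [this, ofAdd_zero, map_one]

lemma c0_ne : c0 ≠ 1 := by
  intro h
  have h1 : Multiplicative.ofAdd (1 : ZMod 7) = 1 :=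
    SemidirectProduct.inl_injective (h.trans (map_one _).symm)
  have h2 : (1 : ZMod 7) = 0 := h1
  exact absurd h2 (by decide)

lemma a0_conj : a0⁻¹ * c0 * a0 = c0 ^ 5 := by
  have h := SemidirectProduct.inl_aut (φ := mulAct) three⁻¹ (Multiplicative.ofAdd (1 : ZMod 7))
  rw [inv_inv] at h
  rw [a0, c0, ← map_inv, ← h, ← map_pow, ← ofAdd_nsmul]
  congr 1

lemma good_base : Good 0 G0 a0 c0 := by
  have hc : c0 ∈ derivedSeries G0 (0+1) := by
    have h1 : c0 = ((a0⁻¹ * c0 * a0) * c0⁻¹) ^ 2 := by
      rw [a0_conj]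
      have : c0 ^ 5 * c0⁻¹ = c0 ^ 4 := by group
      rw [this, ← pow_mul]
      calc c0 = c0 ^ 7 * c0 := by rw [c0_pow, one_mul]
        _ = c0 ^ (4 * 2) := by rw [← pow_succ]
    rw [h1, zero_add, derivedSeries_one]
    refine Subgroup.pow_mem _ ?_ 2
    have h2 := Subgroup.commutator_mem_commutator (Subgroup.mem_top a0⁻¹) (Subgroup.mem_top c0)
    rw [commutatorElement_def, inv_inv] at h2
    exact h2
  refine ⟨?_, by simp, hc, a0_pow, c0_pow, c0_ne, a0_conj⟩
  have h1 := derivedSeries_le mulAct 1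
  have h2 : derivedSeries (Multiplicative (ZMod 7)) 1 = ⊥ := by
    rw [derivedSeries_one, commutator_eq_bot_iff_center_eq_top, CommGroup.center_eq_top]
  rw [h2, Subgroup.map_bot] at h1
  exact le_bot_iff.1 h1

end base

lemma exists_good (n : ℕ) : ∃ (G : Type) (_ : Group G) (a c : G), Good n G a c := by
  induction n with
  | zero => exact ⟨G0, inferInstance, a0, c0, good_base⟩
  | succ n ih =>
    obtain ⟨G, _, a, c, h⟩ := ih
    exact ⟨W G, inferInstance, emb a, emb c, good_step h⟩

section obstruction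

/-- the linear part of the obstruction -/
lemma linear_obstruction {A : Type u} [AddCommGroup A] (c y0 y1 y2 y3 y4 y5 : A)
    (h7' : (7 : ℕ) • c = 0)
    (e0 : y0 - y1 + y2 = c) (e1' : y1 - y2 + y3 = (5 : ℕ) • c)
    (e3' : y3 - y4 + y5 = (125 : ℕ) • c) (e4' : y4 - y5 + y0 = (625 : ℕ) • c) : c = 0 := by
  have h7 : (7 : ℤ) • c = 0 := by rw [← h7']; exact_mod_cast rfl
  have e1 : y1 - y2 + y3 = (5 : ℤ) • c := by rw [e1']; exact_mod_cast rfl
  have e3 : y3 - y4 + y5 = (125 : ℤ) • c := by rw [e3']; exact_mod_cast rfl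
  have e4 : y4 - y5 + y0 = (625 : ℤ) • c := by rw [e4']; exact_mod_cast rfl
  have h1 : y0 + y3 = (6 : ℤ) • c := by
    have : y0 + y3 = (y0 - y1 + y2) + (y1 - y2 + y3) := by abel
    rw [this, e0, e1]
    module
  have h2 : y0 + y3 = (750 : ℤ) • c := by
    have : y0 + y3 = (y3 - y4 + y5) + (y4 - y5 + y0) := by abel
    rw [this, e3, e4]
    module
  have h3 : (744 : ℤ) • c = 0 := by
    have h4 : (744 : ℤ) • c = (750 : ℤ) • c - (6 : ℤ) • c := by module
    rw [h4, ← h2, ← h1, sub_self]
  have h5 : c = (319 : ℤ) • ((7 : ℤ) • c) - (3 : ℤ) • ((744 : ℤ) • c) := by module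
  rw [h5, h7, h3]
  simp


variable {H : Type u} [Group H]

lemma mem_of_eq {n : ℕ} {a c x : H} (ha : a ∈ derivedSeries H n) (hc : c ∈ derivedSeries H (n+1))
    (heq : x * (a⁻¹ * x⁻¹ * a) * (a⁻¹ * a⁻¹ * x * (a * a)) = c) :
    ∀ k ≤ n + 1, x ∈ derivedSeries H k := by
  intro k
  induction k with
  | zero => intro _; simp
  | succ k ih =>
    intro hk
    have hx := ih (by omega)
    have hu : ⁅x⁻¹, a⁻¹⁆ ∈ derivedSeries H (k+1) := by
      by_cases hkn : k = n
      · subst hkn
        rw [derivedSeries_succ]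
        exact Subgroup.commutator_mem_commutator (inv_mem hx) (inv_mem ha)
      · have hle : derivedSeries H n ≤ derivedSeries H (k+1) :=
          derivedSeries_antitone H (by omega)
        apply hle
        have hn : (derivedSeries H n).Normal := inferInstance
        rw [commutatorElement_def]
        exact mul_mem (hn.conj_mem _ (inv_mem ha) _) (inv_mem (inv_mem ha))
    have hn : (derivedSeries H (k+1)).Normal := inferInstance
    have hu2 := hn.conj_mem _ hu a⁻¹
    have hc2 : c ∈ derivedSeries H (k+1) := derivedSeries_antitone H hk hc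
    have hx2 : x = c * (a⁻¹ * ⁅x⁻¹, a⁻¹⁆ * a⁻¹⁻¹)⁻¹ := by
      rw [← heq, commutatorElement_def]
      group
    rw [hx2]
    exact mul_mem hc2 (inv_mem hu2)

lemma no_solution {n : ℕ} {a c x : H} (hH : derivedSeries H (n+2) = ⊥)
    (ha : a ∈ derivedSeries H n) (hc : c ∈ derivedSeries H (n+1)) (ha6 : a ^ 6 = 1)
    (hc7 : c ^ 7 = 1) (hconj : a⁻¹ * c * a = c ^ 5)
    (heq : x * (a⁻¹ * x⁻¹ * a) * (a⁻¹ * a⁻¹ * x * (a * a)) = c) : c = 1 := by
  have hx := mem_of_eq ha hc heq (n+1) le_rfl
  set D := derivedSeries H (n+1) with hD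
  have hn : D.Normal := by rw [hD]; infer_instance
  have hcomm : ∀ u v : D, u * v = v * u := by
    intro u v
    have h1 : ⁅(u : H), (v : H)⁆ ∈ derivedSeries H (n+2) := by
      rw [derivedSeries_succ]
      exact Subgroup.commutator_mem_commutator u.2 v.2
    rw [hH, Subgroup.mem_bot, commutatorElement_eq_one_iff_mul_comm] at h1
    exact Subtype.ext h1
  let _ : CommGroup D := { (inferInstance : Group D) with mul_comm := hcomm }
  -- conjugates
  have hy : ∀ j : ℕ, (a ^ j)⁻¹ * x * a ^ j ∈ D := fun j => by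
    have := hn.conj_mem _ hx (a ^ j)⁻¹
    rwa [inv_inv] at this
  let y : ℕ → D := fun j => ⟨(a ^ j)⁻¹ * x * a ^ j, hy j⟩
  let cc : D := ⟨c, hc⟩
  have hcj : ∀ j : ℕ, (a ^ j)⁻¹ * c * a ^ j = c ^ (5 ^ j) := by
    intro j
    induction j with
    | zero => simp
    | succ j ih =>
      have h1 : (a ^ (j+1))⁻¹ * c * a ^ (j+1) = a⁻¹ * ((a ^ j)⁻¹ * c * a ^ j) * a := by
        rw [pow_succ]; group
      rw [h1, ih]
      have h2 : a⁻¹ * c ^ (5 ^ j) * a = (a⁻¹ * c * a) ^ (5 ^ j) := by
        have := conj_pow (a := a⁻¹) (b := c) (i := 5 ^ j)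
        rw [inv_inv] at this
        exact this.symm
      rw [h2, hconj, ← pow_mul, pow_succ, mul_comm]
  have hE : ∀ j : ℕ, y j * (y (j+1))⁻¹ * y (j+2) = cc ^ (5 ^ j) := by
    intro j
    apply Subtype.ext
    change ((a ^ j)⁻¹ * x * a ^ j) * ((a ^ (j+1))⁻¹ * x * a ^ (j+1))⁻¹ *
      ((a ^ (j+2))⁻¹ * x * a ^ (j+2)) = c ^ (5 ^ j)
    rw [← hcj j, ← heq]
    have e1 : a ^ (j+1) = a ^ j * a := pow_succ a j
    have e2 : a ^ (j+2) = a ^ j * (a * a) := by rw [pow_succ, pow_succ, mul_assoc]
    have e2' : a ^ (j+2) = (a * a) * a ^ j := by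
      rw [← pow_two, ← pow_add, add_comm]
    have e1' : a ^ (j+1) = a * a ^ j := pow_succ' a j
    rw [e1', e2']
    group
  have hy6 : y 6 = y 0 := by
    apply Subtype.ext
    change (a ^ 6)⁻¹ * x * a ^ 6 = (a ^ 0)⁻¹ * x * a ^ 0
    rw [ha6, pow_zero]
  have h0 := hE 0
  have h1 := hE 1
  have h3 := hE 3
  have h4 := hE 4
  norm_num at h0 h1 h3 h4
  rw [hy6] at h4
  have hfin := linear_obstruction (A := Additive D) (Additive.ofMul cc) (Additive.ofMul (y 0))
    (Additive.ofMul (y 1)) (Additive.ofMul (y 2)) (Additive.ofMul (y 3)) (Additive.ofMul (y 4))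
    (Additive.ofMul (y 5)) ?_ ?_ ?_ ?_ ?_
  · have : cc = 1 := hfin
    exact congrArg Subtype.val this
  · have : cc ^ 7 = 1 := Subtype.ext hc7
    have h := congrArg Additive.ofMul this
    rw [ofMul_pow, ofMul_one] at h
    exact h
  · rw [← h0]
    simp [ofMul_mul, ofMul_inv, sub_eq_add_neg]
  · have h := congrArg Additive.ofMul h1
    rw [ofMul_pow] at h
    rw [sub_eq_add_neg]
    simpa [ofMul_mul, ofMul_inv] using h
  · have h := congrArg Additive.ofMul h3
    rw [ofMul_pow] at h
    rw [sub_eq_add_neg]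
    simpa [ofMul_mul, ofMul_inv] using h
  · have h := congrArg Additive.ofMul h4
    rw [ofMul_pow] at h
    rw [sub_eq_add_neg]
    simpa [ofMul_mul, ofMul_inv] using h

end obstruction

/-- the equation `x x^{-a} x^{a²} = c` -/
def equation {G : Type} [Group G] (a c : G) : Monoid.Coprod G (Multiplicative ℤ) :=
  let x : Monoid.Coprod G (Multiplicative ℤ) := Monoid.Coprod.inr (Multiplicative.ofAdd 1)
  let a' : Monoid.Coprod G (Multiplicative ℤ) := Monoid.Coprod.inl a
  x * (a'⁻¹ * x⁻¹ * a') * (a'⁻¹ * a'⁻¹ * x * (a' * a')) * (Monoid.Coprod.inl c)⁻¹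

/-- For every `d ≥ 3` there are a solvable group `G` of derived length exactly `d` and a unimodular
equation `w` over `G` which has no solution in any group `H` of derived length exactly `d`
containing `G`. -/
theorem result : ∀ d : ℕ, 3 ≤ d → ∃ (G : Type) (_ : Group G), HasDerivedLength G d ∧
    ∃ w : Monoid.Coprod G (Multiplicative ℤ), expSum w = 1 ∧
      ∀ (H : Type u) [Group H] (i : G →* H), Function.Injective i → HasDerivedLength H d →
        ∀ h : H, eval i h w ≠ 1 := by
  intro d hd
  obtain ⟨n, rfl⟩ : ∃ n, d = n + 2 := ⟨d - 2, by omega⟩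
  obtain ⟨G, iG, a, c, h1, h2, h3, h4, h5, h6, h7⟩ := exists_good n
  refine ⟨G, iG, ⟨h1, ?_⟩, equation a c, ?_, ?_⟩
  · intro k hk h
    have hle : derivedSeries G (n+1) ≤ derivedSeries G k := derivedSeries_antitone G (by omega)
    rw [h] at hle
    exact h6 (Subgroup.mem_bot.1 (hle h3))
  · simp [expSum, equation]
  · intro H _ i hi hH h heq
    have hmap : ∀ k, (derivedSeries G k).map i ≤ derivedSeries H k :=
      fun k => map_derivedSeries_le_derivedSeries i k
    have heq' : h * ((i a)⁻¹ * h⁻¹ * i a) * ((i a)⁻¹ * (i a)⁻¹ * h * (i a * i a)) = i c := by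
      have := heq
      simp only [eval, equation, map_mul, map_inv, Monoid.Coprod.lift_apply_inl,
        Monoid.Coprod.lift_apply_inr, zpowersHom_apply, toAdd_ofAdd, zpow_one] at this
      exact mul_inv_eq_one.1 this
    have := no_solution hH.1 (hmap n ⟨a, h2, rfl⟩) (hmap (n+1) ⟨c, h3, rfl⟩)
      (by rw [← map_pow, h4, map_one]) (by rw [← map_pow, h5, map_one])
      (by rw [← map_inv, ← map_mul, ← map_mul, h7, map_pow]) heq'
    exact h6 (hi (this.trans (map_one i).symm))

end Pool.Agent.Results.MP_82f72d_al.EveryLength
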